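import Pool.Agent.H516.PCF.All

/-! Two roots in good directions (statement `S_TWO` of helper516, MP_392fd3_nt). -/

namespace Pool.Agent.H155.PCF

open Polynomial Pool.Agent.H516.PCF

/-- a linear inequality valid for all small positive `h` holds in the limit -/
theorem lim_le (x y c ε : ℝ) (hε : 0 < ε) (H : ∀ h : ℝ, 0 < h → h < ε → y + c * h ≤ x) : y ≤ x := by
  by_contra hlt
  push Not at hlt
  have hc : 0 < |c| + 1 := by positivity
  have hd : 0 < (y - x) / (|c| + 1) := div_pos (by linarith) hc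
  have h0 : 0 < min (ε / 2) ((y - x) / (|c| + 1) / 2) := lt_min (by linarith) (by linarith)
  have h1 := H _ h0 (lt_of_le_of_lt (min_le_left _ _) (by linarith))
  have h2 : min (ε / 2) ((y - x) / (|c| + 1) / 2) ≤ (y - x) / (|c| + 1) / 2 := min_le_right _ _
  have h3 : (|c| + 1) * min (ε / 2) ((y - x) / (|c| + 1) / 2) ≤ (y - x) / 2 := by
    calc (|c| + 1) * min (ε / 2) ((y - x) / (|c| + 1) / 2)
        ≤ (|c| + 1) * ((y - x) / (|c| + 1) / 2) := mul_le_mul_of_nonneg_left h2 hc.le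
      _ = (y - x) / 2 := by field_simp
  have h4 : -|c| * min (ε / 2) ((y - x) / (|c| + 1) / 2) ≤ c * min (ε / 2) ((y - x) / (|c| + 1) / 2) :=
    mul_le_mul_of_nonneg_right (neg_abs_le c) h0.le
  nlinarith

theorem two (hNAB : S_NAB) (hGVB : S_GVB) (hSL : S_SL) (hOFIB : S_OFIB) (hFIB : S_FIB) :
    Pool.Agent.H516.PCF.S_TWO := by
  classical
  intro F _ _ _ p w d P Q A O hL n a ρ t R V hR hV hRV γ hγ hvf b hDir hq0
  have hpr := hL.prime
  have hna := hL.na
  obtain ⟨w1, wneg, winv, wpow, wdiv, wsymm, wlt, wtri, wiso, wint, wroot, wdense⟩ :=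
    hNAB F p w hpr hna
  obtain ⟨gmul, gC, gcont, gctr, gcnt, glin⟩ := hGVB F p w hpr hna
  obtain ⟨ofib, gpne, qne, wne, wrgq, wrgg, gpadd, gplin⟩ := hOFIB F p w d P Q A O hL n
  obtain ⟨hb1, hb2, hb3⟩ := hDir
  rw [hq0] at hb3
  -- change of centre
  have hgvU : ∀ U : F[X], gv w U a ρ = gv w U b ρ := fun U => (gctr U a b ρ hb2 ρ le_rfl).1
  -- local linearity
  obtain ⟨ε₁, hε₁, l1⟩ := glin (gp d P Q n γ) b ρ
  obtain ⟨ε₂, hε₂, l2⟩ := glin (qn d P Q n) b ρ
  obtain ⟨ε₃, hε₃, l3⟩ := glin (wr (pn d P Q n) (qn d P Q n)) b ρ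
  set m : ℕ := cnt w (gp d P Q n γ) b ρ with hm
  have hm0 : 0 < m := hb3
  set g1 := gv w (gp d P Q n γ) b ρ with hg1
  set g2 := gv w (qn d P Q n) b ρ with hg2
  set g3 := gv w (wr (pn d P Q n) (qn d P Q n)) b ρ with hg3
  have hWm : ρ + g3 - g1 - g2 ≤ w ((m : ℤ) : F) := by
    apply lim_le _ _ (1 + cnt w (wr (pn d P Q n) (qn d P Q n)) b ρ - m) (min ε₁ (min ε₂ ε₃))
      (lt_min hε₁ (lt_min hε₂ hε₃))
    intro h h0 hε
    have e1 := l1 h h0.le (lt_of_lt_of_le hε (min_le_left _ _))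
    have e2 := l2 h h0.le (lt_of_lt_of_le hε ((min_le_right _ _).trans (min_le_left _ _)))
    have e3 := l3 h h0.le (lt_of_lt_of_le hε ((min_le_right _ _).trans (min_le_right _ _)))
    have hbr1 := (e1.2.2.2 h0).1
    have hbr2 := (e2.2.2.2 h0).1
    have hs := hSL F p w hpr hna (gp d P Q n γ) (qn d P Q n) (gpne γ) qne
      (by rw [wrgq γ]; exact wne) b (ρ + h) hbr1 hbr2 (m : ℤ)
      (by rw [e1.2.2.1, e2.2.2.1, hq0]; simp [hm])
    rcases hs with hs | hs
    · exfalso; have : (m : ℤ) ≠ 0 := by exact_mod_cast hm0.ne'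
      exact this hs
    · rw [wrgq γ, e1.1, e2.1, e3.1, hq0] at hs
      have : ((0 : ℕ) : ℝ) * h = 0 := by simp
      rw [this] at hs
      nlinarith
  -- positivity of `w m`
  have hDF : DF w d P Q n a ρ = g3 - 2 * g2 := by
    unfold DF; rw [hgvU, hgvU]
  have hvf' : g1 - g2 = t := by
    rw [← hvf]; unfold vf; rw [hgvU (gp d P Q n γ), hgvU (qn d P Q n)]
  have hpos : 0 < w ((m : ℤ) : F) := by
    rw [hDF] at hV
    linarith
  have hmz : (m : ℤ) ≠ 0 := by exact_mod_cast hm0.ne'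
  have hm2 : 2 ≤ m := by
    by_contra hlt
    have h1 : m = 1 := by omega
    rw [h1] at hpos
    simp only [Nat.cast_one, Int.cast_one, w1, lt_self_iff_false] at hpos
  -- two roots
  obtain ⟨-, -, hsimple⟩ := hFIB F d P Q hL.nrm n γ
  obtain ⟨hnd, -⟩ := hsimple A hL.post (hL.disj γ hγ)
  have hS : m = ((gp d P Q n γ).roots.filter fun z => z = b ∨ ρ < w (b - z)).card := by
    rw [hm]; unfold cnt; rfl
  have hndS : ((gp d P Q n γ).roots.filter fun z => z = b ∨ ρ < w (b - z)).Nodup :=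
    Multiset.Nodup.filter _ hnd
  have hcard : 1 < (Multiset.toFinset
      ((gp d P Q n γ).roots.filter fun z => z = b ∨ ρ < w (b - z))).card := by
    rw [Multiset.toFinset_card_of_nodup hndS]; omega
  obtain ⟨b₁, h1, b₂, h2, h12⟩ := Finset.one_lt_card.1 hcard
  rw [Multiset.mem_toFinset, Multiset.mem_filter] at h1 h2
  refine ⟨b₁, h1.1, b₂, h2.1, h12, h1.2, h2.2, ?_⟩
  rcases eq_or_ne b₁ b with e1 | e1
  · subst e1
    rcases h2.2 with e2 | e2
    · exact absurd e2.symm h12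
    · exact e2
  · rcases eq_or_ne b₂ b with e2 | e2
    · subst e2
      rcases h1.2 with e3 | e3
      · exact absurd e3 e1
      · rw [wsymm _ _ h12]; exact e3
    · have h3 : ρ < w (b - b₁) := h1.2.resolve_left e1
      have h4 : ρ < w (b - b₂) := h2.2.resolve_left e2
      have h5 : ρ < w (b₁ - b) := by rw [wsymm _ _ e1]; exact h3
      exact lt_of_lt_of_le (lt_min h5 h4) (wtri b₁ b b₂ e1 (Ne.symm e2) h12)

end Pool.Agent.H155.PCF
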